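import Mathlib

/-!
# Davenport's inequality for `a ^ 3 - b ^ 2` over `ℚ[X]`

A proof with one Wronskian: `w = 3 a' b - 2 a b'`, `D = a³ - b²`,
`b D' - 2 b' D = a² w`, `a D' - 3 a' D = b w`, and `D / rad D ∣ w`.
-/

set_option autoImplicit false

namespace Pool.Agent.N8.RW

open Polynomial

/-- divisibility is tested on prime powers -/
theorem dvd_of_prime_pow {E w : ℚ[X]} (hE : E ≠ 0)
    (h : ∀ (P : ℚ[X]) (k : ℕ), Prime P → P ^ k ∣ E → P ^ k ∣ w) : E ∣ w := by
  have key : E ≠ 0 → (∀ (P : ℚ[X]) (k : ℕ), Prime P → P ^ k ∣ E → P ^ k ∣ w) → E ∣ w := by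
    refine UniqueFactorizationMonoid.induction_on_coprime (P := fun E : ℚ[X] => E ≠ 0 →
      (∀ (P : ℚ[X]) (k : ℕ), Prime P → P ^ k ∣ E → P ^ k ∣ w) → E ∣ w) E ?_ ?_ ?_ ?_
    · intro h0; exact absurd rfl h0
    · intro x hx _ _; exact hx.dvd
    · intro p i hp _ h; exact h p i hp dvd_rfl
    · intro x y hxy hx hy h0 h
      have hx0 : x ≠ 0 := left_ne_zero_of_mul h0
      have hy0 : y ≠ 0 := right_ne_zero_of_mul h0
      have h1 := hx hx0 fun P k hP hk => h P k hP (hk.mul_right y)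
      have h2 := hy hy0 fun P k hP hk => h P k hP (hk.mul_left x)
      exact IsCoprime.mul_dvd (isRelPrime_iff_isCoprime.1 hxy) h1 h2
  exact key hE h

/-- `P ^ k` divides the derivative if `P ^ (k + 1)` divides the polynomial -/
theorem pow_dvd_derivative {P D : ℚ[X]} {k : ℕ} (h : P ^ (k + 1) ∣ D) : P ^ k ∣ derivative D := by
  obtain ⟨q, rfl⟩ := h
  rw [derivative_mul, derivative_pow, Nat.add_sub_cancel]
  refine dvd_add ?_ ?_
  · exact ⟨C ((k + 1 : ℕ) : ℚ) * derivative P * q, by ring⟩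
  · exact ⟨P * derivative q, by ring⟩

theorem prime_not_dvd_of {P x y : ℚ[X]} (hP : Prime P) (hy : ¬ P ∣ y) {n : ℕ} :
    ¬ P ∣ P * x - y ^ n := by
  intro h
  have h1 : P ∣ y ^ n := by
    have := dvd_sub (dvd_mul_right P x) h
    rwa [sub_sub_cancel] at this
  exact hy (hP.dvd_of_dvd_pow h1)

theorem prime_not_dvd_of' {P x y : ℚ[X]} (hP : Prime P) (hy : ¬ P ∣ y) {n : ℕ} :
    ¬ P ∣ y ^ n - P * x := by
  intro h
  have h1 : P ∣ y ^ n := by
    have := dvd_add h (dvd_mul_right P x)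
    rwa [sub_add_cancel] at this
  exact hy (hP.dvd_of_dvd_pow h1)

theorem pow_dvd_mul {P x : ℚ[X]} (hP : Prime P) {k r : ℕ} (h : P ^ k ∣ P ^ r * x)
    (hx : ¬ P ∣ x) : k ≤ r := by
  by_contra hlt
  push Not at hlt
  have h1 : P ^ (r + 1) ∣ P ^ r * x := (pow_dvd_pow P (by omega)).trans h
  rw [pow_succ] at h1
  exact hx ((mul_dvd_mul_iff_left (pow_ne_zero r hP.ne_zero)).1 h1)

/-- local divisibility -/
theorem local_dvd {a b P : ℚ[X]} {k : ℕ} (hP : Prime P) (hmin : ¬ (P ^ 2 ∣ a ∧ P ^ 3 ∣ b))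
    (hD : P ^ (k + 1) ∣ a ^ 3 - b ^ 2) :
    P ^ k ∣ 3 * derivative a * b - 2 * a * derivative b := by
  set w := 3 * derivative a * b - 2 * a * derivative b with hw
  have hD' : P ^ k ∣ derivative (a ^ 3 - b ^ 2) := pow_dvd_derivative hD
  have hD0 : P ^ k ∣ a ^ 3 - b ^ 2 := (pow_dvd_pow P (Nat.le_succ k)).trans hD
  have hd : derivative (a ^ 3 - b ^ 2) = 3 * a ^ 2 * derivative a - 2 * b * derivative b := by
    rw [show a ^ 3 - b ^ 2 = a * a * a - b * b by ring]
    simp only [derivative_sub, derivative_mul]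
    ring
  have hbw : P ^ k ∣ b * w := by
    have e : b * w = a * derivative (a ^ 3 - b ^ 2) - 3 * derivative a * (a ^ 3 - b ^ 2) := by
      rw [hd, hw]; ring
    rw [e]
    exact dvd_sub (hD'.mul_left _) (hD0.mul_left _)
  have haw : P ^ k ∣ a ^ 2 * w := by
    have e : a ^ 2 * w = b * derivative (a ^ 3 - b ^ 2) - 2 * derivative b * (a ^ 3 - b ^ 2) := by
      rw [hd, hw]; ring
    rw [e]
    exact dvd_sub (hD'.mul_left _) (hD0.mul_left _)
  by_cases hb : P ∣ b
  swap
  · exact (hP.pow_dvd_of_dvd_mul_left k hb hbw)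
  by_cases ha : P ∣ a
  swap
  · exact (hP.pow_dvd_of_dvd_mul_left k (fun h => ha (hP.dvd_of_dvd_pow h)) haw)
  obtain ⟨a₁, rfl⟩ := ha
  obtain ⟨b₁, rfl⟩ := hb
  by_cases hb1 : P ∣ b₁
  · obtain ⟨b₂, rfl⟩ := hb1
    by_cases ha1 : P ∣ a₁
    · obtain ⟨a₂, rfl⟩ := ha1
      have hb2 : ¬ P ∣ b₂ := by
        rintro ⟨b₃, rfl⟩
        exact hmin ⟨⟨a₂, by ring⟩, ⟨b₃, by ring⟩⟩
      have h4 : (P * (P * a₂)) ^ 3 - (P * (P * b₂)) ^ 2 = P ^ 4 * (P * (P * a₂ ^ 3) - b₂ ^ 2) := by
        ring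
      rw [h4] at hD
      have h5 := pow_dvd_mul hP hD (prime_not_dvd_of hP hb2)
      refine (pow_dvd_pow P (show k ≤ 3 by omega)).trans ?_
      rw [hw]
      simp only [derivative_mul]
      exact ⟨3 * (derivative P * a₂ + (derivative P * a₂ + P * derivative a₂)) * b₂ -
        2 * a₂ * (derivative P * b₂ + (derivative P * b₂ + P * derivative b₂)), by ring⟩
    · have h4 : (P * a₁) ^ 3 - (P * (P * b₂)) ^ 2 = P ^ 3 * (a₁ ^ 3 - P * b₂ ^ 2) := by
        ring
      rw [h4] at hD
      have h5 := pow_dvd_mul hP hD (prime_not_dvd_of' hP ha1)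
      refine (pow_dvd_pow P (show k ≤ 2 by omega)).trans ?_
      rw [hw]
      simp only [derivative_mul]
      exact ⟨3 * (derivative P * a₁ + P * derivative a₁) * b₂ -
        2 * a₁ * (derivative P * b₂ + (derivative P * b₂ + P * derivative b₂)), by ring⟩
  · have h4 : (P * a₁) ^ 3 - (P * b₁) ^ 2 = P ^ 2 * (P * a₁ ^ 3 - b₁ ^ 2) := by
      ring
    rw [h4] at hD
    have h5 := pow_dvd_mul hP hD (prime_not_dvd_of hP hb1)
    refine (pow_dvd_pow P (show k ≤ 1 by omega)).trans ?_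
    rw [hw, pow_one]
    simp only [derivative_mul]
    exact ⟨3 * (derivative P * a₁ + P * derivative a₁) * b₁ -
      2 * a₁ * (derivative P * b₁ + P * derivative b₁), by ring⟩

/-- two polynomials with vanishing Wronskian are proportional -/
theorem proportional {f h : ℚ[X]} (hf : f ≠ 0) (hw : f * derivative h - derivative f * h = 0) :
    ∃ x y : ℚ, C x * f = C y * h ∧ ¬ (x = 0 ∧ y = 0) := by
  classical
  obtain ⟨A, B, hA, hB, hU⟩ := extract_gcd f h
  set c := gcd f h with hc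
  have hc0 : c ≠ 0 := by
    intro h0
    exact hf ((gcd_eq_zero_iff f h).1 h0).1
  have hAB : IsCoprime A B := (gcd_isUnit_iff A B).1 hU
  have hw2 : wronskian A B = 0 := by
    unfold wronskian
    have h1 : c ^ 2 * (A * derivative B - derivative A * B) = 0 := by
      rw [← hw, hA, hB, derivative_mul, derivative_mul]
      ring
    rcases mul_eq_zero.1 h1 with h2 | h2
    · exact absurd (pow_eq_zero_iff two_ne_zero |>.1 h2) hc0
    · exact h2
  obtain ⟨h1, h2⟩ := hAB.wronskian_eq_zero_iff.1 hw2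
  have h3 := Polynomial.derivative_eq_zero.1 h1
  have h4 := Polynomial.derivative_eq_zero.1 h2
  rw [natDegree_eq_zero] at h3 h4
  obtain ⟨x, hx⟩ := h3
  obtain ⟨y, hy⟩ := h4
  refine ⟨y, x, ?_, ?_⟩
  · rw [hA, hB, ← hx, ← hy]; ring
  · rintro ⟨-, rfl⟩
    apply hf
    rw [hA, ← hx]; simp

/-- Davenport's inequality -/
theorem davenport (a b g : ℚ[X]) (hrel : ∀ x y : ℚ, C x * a ^ 3 = C y * b ^ 2 → x = 0 ∧ y = 0)
    (hmin : ∀ π : ℚ[X], Irreducible π → ¬ (π ^ 2 ∣ a ∧ π ^ 3 ∣ b))
    (hgD : g ∣ a ^ 3 - b ^ 2) (hDg : ∃ k : ℕ, a ^ 3 - b ^ 2 ∣ g ^ k) :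
    max (3 * a.natDegree) (2 * b.natDegree) + 6 ≤ 6 * g.natDegree := by
  have ha : a ≠ 0 := by
    rintro rfl
    have := (hrel 1 0 (by simp)).1
    exact one_ne_zero this
  have hb : b ≠ 0 := by
    rintro rfl
    have := (hrel 0 1 (by simp)).2
    exact one_ne_zero this
  set D := a ^ 3 - b ^ 2 with hD
  have hD0 : D ≠ 0 := by
    intro h
    have := (hrel 1 1 (by rw [sub_eq_zero.1 h])).1
    exact one_ne_zero this
  set w := 3 * derivative a * b - 2 * a * derivative b with hw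
  have hw0 : w ≠ 0 := by
    intro h
    have h1 : a ^ 3 * derivative (b ^ 2) - derivative (a ^ 3) * b ^ 2 = 0 := by
      have e : a ^ 3 * derivative (b ^ 2) - derivative (a ^ 3) * b ^ 2 = - (a ^ 2 * b * w) := by
        rw [show a ^ 3 = a * a * a by ring, show b ^ 2 = b * b by ring, hw]
        simp only [derivative_mul]
        ring
      rw [e, h]; simp
    obtain ⟨x, y, hxy, hne⟩ := proportional (pow_ne_zero 3 ha) h1
    exact hne (hrel x y hxy)
  have hd : derivative D = 3 * a ^ 2 * derivative a - 2 * b * derivative b := by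
    rw [hD, show a ^ 3 - b ^ 2 = a * a * a - b * b by ring]
    simp only [derivative_sub, derivative_mul]
    ring
  obtain ⟨E, hE⟩ := hgD
  have hg0 : g ≠ 0 := by
    rintro rfl
    exact hD0 (by rw [hE, zero_mul])
  have hE0 : E ≠ 0 := by
    rintro rfl
    exact hD0 (by rw [hE, mul_zero])
  obtain ⟨K, hK⟩ := hDg
  -- prime powers dividing `E`
  have hstep : ∀ (P : ℚ[X]) (k : ℕ), Prime P → P ^ (k + 1) ∣ E → P ^ (k + 1 + 1) ∣ D := by
    intro P k hP h
    have h1 : P ∣ g := by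
      refine hP.dvd_of_dvd_pow (n := K) ?_
      refine dvd_trans ?_ hK
      rw [hE]
      exact ((dvd_pow_self P (Nat.succ_ne_zero k)).trans h).mul_left g
    rw [hE, pow_succ, mul_comm]
    exact mul_dvd_mul h1 h
  have hEw : E ∣ w := by
    refine dvd_of_prime_pow hE0 fun P k hP h => ?_
    rcases k with _ | k
    · simp
    · exact local_dvd hP (hmin P hP.irreducible) (hstep P k hP h)
  have hED : E ∣ derivative D := by
    refine dvd_of_prime_pow hE0 fun P k hP h => ?_
    rcases k with _ | k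
    · simp
    · exact pow_dvd_derivative (hstep P k hP h)
  obtain ⟨w₁, hw₁⟩ := hEw
  obtain ⟨D₁, hD₁⟩ := hED
  have hw₁0 : w₁ ≠ 0 := by
    rintro rfl
    exact hw0 (by rw [hw₁, mul_zero])
  have e1 : a ^ 2 * w₁ = b * D₁ - 2 * derivative b * g := by
    apply mul_left_cancel₀ hE0
    have h1 : a ^ 2 * w = b * derivative D - 2 * derivative b * D := by
      rw [hd, hw, hD]; ring
    calc E * (a ^ 2 * w₁) = a ^ 2 * w := by rw [hw₁]; ring
      _ = b * derivative D - 2 * derivative b * D := h1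
      _ = b * (E * D₁) - 2 * derivative b * (g * E) := by rw [hD₁, ← hE]
      _ = E * (b * D₁ - 2 * derivative b * g) := by ring
  have e2 : b * w₁ = a * D₁ - 3 * derivative a * g := by
    apply mul_left_cancel₀ hE0
    have h1 : b * w = a * derivative D - 3 * derivative a * D := by
      rw [hd, hw, hD]; ring
    calc E * (b * w₁) = b * w := by rw [hw₁]; ring
      _ = a * derivative D - 3 * derivative a * D := h1
      _ = a * (E * D₁) - 3 * derivative a * (g * E) := by rw [hD₁, ← hE]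
      _ = E * (a * D₁ - 3 * derivative a * g) := by ring
  -- degrees
  have hdD : D₁.degree < g.degree := by
    have h1 : (derivative D).degree < D.degree := degree_derivative_lt hD0
    have h2 : (derivative D).degree = E.degree + D₁.degree := by rw [hD₁, degree_mul]
    have h3 : D.degree = E.degree + g.degree := by rw [hE, degree_mul, add_comm]
    rw [h2, h3] at h1
    exact lt_of_add_lt_add_left h1
  have hterm : ∀ c y : ℚ[X], y ≠ 0 → c.natDegree = 0 →
      (y * D₁ - c * derivative y * g).degree < (y * g).degree := by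
    intro c y hy hc
    refine lt_of_le_of_lt (degree_sub_le _ _) (max_lt ?_ ?_)
    · rw [degree_mul, degree_mul]
      exact (WithBot.add_lt_add_iff_left (degree_ne_bot.2 hy)).2 hdD
    · rw [degree_mul, degree_mul, degree_mul]
      refine (WithBot.add_lt_add_iff_right (degree_ne_bot.2 hg0)).2 ?_
      have h1 : c.degree ≤ 0 := by
        rw [← natDegree_eq_zero_iff_degree_le_zero]; exact hc
      calc c.degree + (derivative y).degree ≤ 0 + (derivative y).degree :=
            add_le_add_left h1 _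
        _ = (derivative y).degree := zero_add _
        _ < y.degree := degree_derivative_lt hy
  have n1 : (a ^ 2 * w₁).natDegree < (b * g).natDegree := by
    refine natDegree_lt_natDegree (mul_ne_zero (pow_ne_zero 2 ha) hw₁0) ?_
    rw [e1]
    exact hterm 2 b hb (natDegree_ofNat 2)
  have n2 : (b * w₁).natDegree < (a * g).natDegree := by
    refine natDegree_lt_natDegree (mul_ne_zero hb hw₁0) ?_
    rw [e2]
    exact hterm 3 a ha (natDegree_ofNat 3)
  rw [natDegree_mul (pow_ne_zero 2 ha) hw₁0, natDegree_mul hb hg0, natDegree_pow] at n1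
  rw [natDegree_mul hb hw₁0, natDegree_mul ha hg0] at n2
  rcases max_cases (3 * a.natDegree) (2 * b.natDegree) with ⟨h, _⟩ | ⟨h, _⟩ <;> rw [h] <;> omega

end Pool.Agent.N8.RW
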